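import Pool.Agent.helper64.D2.SpecC

set_option autoImplicit false

open Filter Topology
open scoped commutatorElement

namespace Pool.Agent.helper64.D2

theorem BOX_hd (X : ℝ → ℝ) (α β : ℝ) (hX : Continuous X) (x : ℝ) :
    HasDerivAt (av X α β) ((X (x + β) - X (x + α)) / (β - α)) x := by
  have hF : ∀ u : ℝ, HasDerivAt (fun u => ∫ y in (0 : ℝ)..u, X y) (X u) u := fun u =>
    intervalIntegral.integral_hasDerivAt_right (hX.intervalIntegrable _ _)
      (hX.stronglyMeasurableAtFilter _ _) hX.continuousAt
  have e : av X α β = fun x => ((∫ y in (0 : ℝ)..(x + β), X y) - ∫ y in (0 : ℝ)..(x + α), X y) / (β - α) := by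
    funext x
    unfold av
    rw [intervalIntegral.integral_interval_sub_left (hX.intervalIntegrable _ _) (hX.intervalIntegrable _ _)]
  rw [e]
  have h1 : HasDerivAt (fun x => ∫ y in (0 : ℝ)..(x + β), X y) (X (x + β)) x := by
    exact (hF (x + β)).comp_add_const x β
  have h2 : HasDerivAt (fun x => ∫ y in (0 : ℝ)..(x + α), X y) (X (x + α)) x := by
    exact (hF (x + α)).comp_add_const x α
  exact (h1.sub h2).div_const _

theorem BOX_lip (X : ℝ → ℝ) (a : ℝ) (hX : ContDiff ℝ 2 X) (h : ∀ x, |d2 X x| ≤ a) (x y : ℝ) :
    |deriv X x - deriv X y| ≤ a * |x - y| := by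
  have hd : Differentiable ℝ (deriv X) :=
    ((contDiff_succ_iff_deriv (n := 1)).1 (by
      have h2 : (1 + 1 : WithTop ℕ∞) = 2 := by norm_num
      rw [h2]; exact hX)).2.2.differentiable (by norm_num)
  have := Convex.norm_image_sub_le_of_norm_deriv_le (f := deriv X) (C := a) (s := Set.univ)
    (fun x _ => hd x) (fun x _ => by simpa [Real.norm_eq_abs, d2] using h x) convex_univ
    (Set.mem_univ y) (Set.mem_univ x)
  simpa [Real.norm_eq_abs] using this

theorem BOX : BOX_stmt := by
  intro X p q a α β hX h0 ha hαβ
  have hc : Continuous X := hX.continuous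
  have hba : 0 < β - α := by linarith
  have hd1 : deriv (av X α β) = fun x => (X (x + β) - X (x + α)) / (β - α) := by
    funext x
    exact (BOX_hd X α β hc x).deriv
  have hXd : Differentiable ℝ X := hX.differentiable (by norm_num)
  have hd2 : ∀ x, d2 (av X α β) x = (deriv X (x + β) - deriv X (x + α)) / (β - α) := by
    intro x
    unfold d2
    rw [hd1]
    have h1 : HasDerivAt (fun x => X (x + β)) (deriv X (x + β)) x := by
      exact (hXd (x + β)).hasDerivAt.comp_add_const x β
    have h2 : HasDerivAt (fun x => X (x + α)) (deriv X (x + α)) x := by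
      exact (hXd (x + α)).hasDerivAt.comp_add_const x α
    exact ((h1.sub h2).div_const _).deriv
  have hlip := BOX_lip X a hX ha
  refine ⟨?_, ?_, ?_, hd2, ?_, ?_⟩
  · have : ContDiff ℝ (1 + 1) (av X α β) := by
      refine contDiff_succ_iff_deriv.2 ⟨fun x => (BOX_hd X α β hc x).differentiableAt, by simp, ?_⟩
      rw [hd1]
      have hX1 : ContDiff ℝ 1 X := hX.of_le (by norm_num)
      exact ((hX1.comp (contDiff_id.add contDiff_const)).sub
        (hX1.comp (contDiff_id.add contDiff_const))).div_const _
    have h2 : (1 + 1 : WithTop ℕ∞) = 2 := by norm_num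
    rw [h2] at this
    exact this
  · intro x hx
    unfold av
    have : (∫ y in (x + α)..(x + β), X y) = ∫ y in (x + α)..(x + β), (0 : ℝ) := by
      refine intervalIntegral.integral_congr (fun y hy => ?_)
      rw [Set.uIcc_of_le (by linarith)] at hy
      apply h0
      intro hy'
      apply hx
      exact ⟨by linarith [hy.2, hy'.1], by linarith [hy.1, hy'.2]⟩
    rw [this]
    simp
  · intro x
    rw [hd1]
  · intro x
    rw [hd2 x, abs_div, abs_of_pos hba, div_le_iff₀ hba]
    have := hlip (x + β) (x + α)
    rwa [show x + β - (x + α) = β - α by ring, abs_of_pos hba] at this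
  · intro x y
    rw [hd2 x, hd2 y, ← sub_div, abs_div, abs_of_pos hba, div_mul_eq_mul_div,
      div_le_div_iff_of_pos_right hba]
    have h1 := hlip (x + β) (y + β)
    have h2 := hlip (x + α) (y + α)
    rw [show x + β - (y + β) = x - y by ring] at h1
    rw [show x + α - (y + α) = x - y by ring] at h2
    have h3 : deriv X (x + β) - deriv X (x + α) - (deriv X (y + β) - deriv X (y + α))
        = (deriv X (x + β) - deriv X (y + β)) - (deriv X (x + α) - deriv X (y + α)) := by ring
    rw [h3]
    have h4 := abs_sub (deriv X (x + β) - deriv X (y + β)) (deriv X (x + α) - deriv X (y + α))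
    linarith

end Pool.Agent.helper64.D2
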