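import Pool.Agent.helper64.D2.SpecF

set_option autoImplicit false

open Filter Topology
open scoped commutatorElement

namespace Pool.Agent.helper64.D2

theorem FRG_dX {G : ℝ → ℝ} (hG : ContDiff ℝ 2 G) (x : ℝ) :
    HasDerivAt (fun x => G x - x) (deriv G x - 1) x :=
  ((hG.differentiable (by norm_num)) x).hasDerivAt.sub (hasDerivAt_id x)

theorem FRG_dd {G : ℝ → ℝ} (hG : ContDiff ℝ 2 G) (x : ℝ) :
    HasDerivAt (deriv G) (d2 G x) x := by
  have h2 : (2 : WithTop ℕ∞) = 1 + 1 := by norm_num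
  rw [h2] at hG
  have := (contDiff_succ_iff_deriv.1 hG).2.2
  exact ((this.differentiable (by norm_num)) x).hasDerivAt

theorem FRG_lip {u : ℝ → ℝ} {u' : ℝ → ℝ} {K : ℝ} (h : ∀ x, HasDerivAt u (u' x) x) (hb : ∀ x, |u' x| ≤ K) (x y : ℝ) :
    |u x - u y| ≤ K * |x - y| := by
  have := Convex.norm_image_sub_le_of_norm_hasDerivWithin_le (f := u) (f' := u') (C := K) (s := Set.univ)
    (fun x _ => (h x).hasDerivWithinAt) (fun x _ => by simpa [Real.norm_eq_abs] using hb x) convex_univ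
    (Set.mem_univ y) (Set.mem_univ x)
  simpa [Real.norm_eq_abs] using this

/-- derivative formulas for `F = id + τ X`. -/
theorem FRG_F1 {G τ : ℝ → ℝ} (hG : ContDiff ℝ 2 G) (hτ : ContDiff ℝ 3 τ) :
    (∀ x, HasDerivAt (fun x => x + τ x * (G x - x)) (1 + (deriv τ x * (G x - x) + τ x * (deriv G x - 1))) x) ∧
    deriv (fun x => x + τ x * (G x - x)) = (fun x => 1 + (deriv τ x * (G x - x) + τ x * (deriv G x - 1))) ∧
    (∀ x, d2 (fun x => x + τ x * (G x - x)) x =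
      d2 τ x * (G x - x) + deriv τ x * (deriv G x - 1) + (deriv τ x * (deriv G x - 1) + τ x * d2 G x)) := by
  have hτd : ∀ x, HasDerivAt τ (deriv τ x) x := fun x => ((hτ.differentiable (by norm_num)) x).hasDerivAt
  have hτ2 : ContDiff ℝ 2 τ := hτ.of_le (by norm_num)
  have h1 : ∀ x, HasDerivAt (fun x => x + τ x * (G x - x)) (1 + (deriv τ x * (G x - x) + τ x * (deriv G x - 1))) x :=
    fun x => (hasDerivAt_id x).add ((hτd x).mul (FRG_dX hG x))
  have h2 : deriv (fun x => x + τ x * (G x - x)) = (fun x => 1 + (deriv τ x * (G x - x) + τ x * (deriv G x - 1))) :=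
    funext fun x => (h1 x).deriv
  refine ⟨h1, h2, fun x => ?_⟩
  unfold d2
  rw [h2]
  have h3 : HasDerivAt (fun x => 1 + (deriv τ x * (G x - x) + τ x * (deriv G x - 1)))
      (d2 τ x * (G x - x) + deriv τ x * (deriv G x - 1) + (deriv τ x * (deriv G x - 1) + τ x * d2 G x)) x := by
    have a1 := (FRG_dd hτ2 x).mul (FRG_dX hG x)
    have a2 := (hτd x).mul ((FRG_dd hG x).sub_const 1)
    exact (a1.add a2).const_add 1
  exact h3.deriv

theorem FRG_F (hMLA : MLA_stmt) {G τ : ℝ → ℝ} {c C B : ℝ} (hG : ContDiff ℝ 2 G) (hτ : ContDiff ℝ 3 τ)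
    (hc0 : 0 < c) (hc1 : c ≤ 1) (hC1 : 1 ≤ C)
    (hb : ∀ x, c ≤ deriv G x ∧ deriv G x ≤ C ∧ |d2 G x| ≤ C ∧ |G x - x| ≤ C)
    (hG1 : ∀ x, G (x + 1) = G x + 1) (hτ1 : ∀ x, τ (x + 1) = τ x)
    (hτ0 : ∀ x, 0 ≤ τ x ∧ τ x ≤ 1) (hB0 : 0 ≤ B) (hB1 : B * C ≤ c / 2) (hB2 : 3 * B ≤ 1)
    (hτB : ∀ x, |deriv τ x| ≤ B ∧ |d2 τ x| ≤ B ∧ |deriv (d2 τ) x| ≤ B) :
    ContDiff ℝ 2 (fun x => x + τ x * (G x - x)) ∧
    (∀ x, (x + 1) + τ (x + 1) * (G (x + 1) - (x + 1)) = x + τ x * (G x - x) + 1) ∧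
    (∀ x, c / 2 ≤ deriv (fun x => x + τ x * (G x - x)) x ∧ deriv (fun x => x + τ x * (G x - x)) x ≤ 3 * C ∧
      |d2 (fun x => x + τ x * (G x - x)) x| ≤ 2 * C) ∧
    (ML (d2 G) → ML (d2 (fun x => x + τ x * (G x - x)))) := by
  obtain ⟨hF1, hF2, hF3⟩ := FRG_F1 hG hτ
  have hX' : ∀ x, |deriv G x - 1| ≤ C := fun x => by
    rw [abs_le]; constructor <;> linarith [(hb x).1, (hb x).2.1]
  refine ⟨?_, ?_, ?_, ?_⟩
  · exact contDiff_id.add ((hτ.of_le (by norm_num)).mul (hG.sub contDiff_id))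
  · intro x; rw [hτ1, hG1]; ring
  · intro x
    rw [hF2]
    have h1 := (hτB x).1
    have h2 := (hb x).2.2.2
    have h3 : |deriv τ x * (G x - x)| ≤ B * C := by
      rw [abs_mul]; exact mul_le_mul h1 h2 (abs_nonneg _) hB0
    have h4 := abs_le.1 h3
    have h5 : c ≤ 1 + τ x * (deriv G x - 1) := by
      nlinarith [(hτ0 x).1, (hτ0 x).2, (hb x).1, mul_nonneg (hτ0 x).1 (sub_nonneg.2 (hb x).1),
        mul_nonneg (sub_nonneg.2 (hτ0 x).2) (sub_nonneg.2 hc1)]
    have h6 : 1 + τ x * (deriv G x - 1) ≤ C := by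
      nlinarith [(hτ0 x).1, (hτ0 x).2, (hb x).2.1, mul_nonneg (hτ0 x).1 (sub_nonneg.2 (hb x).2.1),
        mul_nonneg (sub_nonneg.2 (hτ0 x).2) (sub_nonneg.2 hC1)]
    refine ⟨by show c / 2 ≤ 1 + (deriv τ x * (G x - x) + τ x * (deriv G x - 1)); linarith [h4.1],
      by show 1 + (deriv τ x * (G x - x) + τ x * (deriv G x - 1)) ≤ 3 * C; linarith [h4.2], ?_⟩
    rw [hF3]
    have k1 : |d2 τ x * (G x - x)| ≤ B * C := by
      rw [abs_mul]; exact mul_le_mul (hτB x).2.1 h2 (abs_nonneg _) hB0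
    have k2 : |deriv τ x * (deriv G x - 1)| ≤ B * C := by
      rw [abs_mul]; exact mul_le_mul h1 (hX' x) (abs_nonneg _) hB0
    have k3 : |τ x * d2 G x| ≤ 1 * C := by
      rw [abs_mul]
      exact mul_le_mul (by rw [abs_of_nonneg (hτ0 x).1]; exact (hτ0 x).2) (hb x).2.2.1 (abs_nonneg _) zero_le_one
    have k4 : 3 * (B * C) ≤ C := by nlinarith
    rw [abs_le] at k1 k2 k3 ⊢
    constructor <;> linarith [k1.1, k1.2, k2.1, k2.2, k3.1, k3.2]
  · intro hML
    obtain ⟨m1, m2, m3, m4⟩ := hMLA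
    have e : d2 (fun x => x + τ x * (G x - x)) = fun x =>
        (d2 τ x * (G x - x) + deriv τ x * (deriv G x - 1)) + (deriv τ x * (deriv G x - 1) + τ x * d2 G x) :=
      funext hF3
    rw [e]
    have hτ2 : ContDiff ℝ 2 τ := hτ.of_le (by norm_num)
    have hB3 : B ≤ C := by linarith
    have l1 : ML τ := m1 τ B (FRG_lip (fun x => ((hτ.differentiable (by norm_num)) x).hasDerivAt) (fun x => (hτB x).1))
    have l2 : ML (deriv τ) := m1 _ B (FRG_lip (fun x => FRG_dd hτ2 x) (fun x => (hτB x).2.1))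
    have hd3 : ∀ x, HasDerivAt (d2 τ) (deriv (d2 τ) x) x := by
      have h3 : (3 : WithTop ℕ∞) = 2 + 1 := by norm_num
      rw [h3] at hτ
      have h4 := (contDiff_succ_iff_deriv.1 hτ).2.2
      intro x
      have h5 := FRG_dd h4 x
      have h6 : DifferentiableAt ℝ (deriv (deriv τ)) x := by
        have h2 : (2 : WithTop ℕ∞) = 1 + 1 := by norm_num
        rw [h2] at h4
        exact ((contDiff_succ_iff_deriv.1 h4).2.2.differentiable (by norm_num)) x
      exact h6.hasDerivAt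
    have l3 : ML (d2 τ) := m1 _ B (FRG_lip hd3 (fun x => (hτB x).2.2))
    have l4 : ML (fun x => G x - x) := m1 _ C (FRG_lip (fun x => FRG_dX hG x) hX')
    have l5 : ML (fun x => deriv G x - 1) := m1 _ C
      (FRG_lip (fun x => (FRG_dd hG x).sub_const 1) (fun x => (hb x).2.2.1))
    refine m2 (fun x => d2 τ x * (G x - x) + deriv τ x * (deriv G x - 1))
      (fun x => deriv τ x * (deriv G x - 1) + τ x * d2 G x) (m2 (fun x => d2 τ x * (G x - x)) (fun x => deriv τ x * (deriv G x - 1)) ?_ ?_)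
      (m2 (fun x => deriv τ x * (deriv G x - 1)) (fun x => τ x * d2 G x) ?_ ?_)
    · exact m3 (d2 τ) (fun x => G x - x) C l3 l4 (fun x => ⟨(hτB x).2.1.trans hB3, (hb x).2.2.2⟩)
    · exact m3 (deriv τ) (fun x => deriv G x - 1) C l2 l5 (fun x => ⟨(hτB x).1.trans hB3, hX' x⟩)
    · exact m3 (deriv τ) (fun x => deriv G x - 1) C l2 l5 (fun x => ⟨(hτB x).1.trans hB3, hX' x⟩)
    · exact m3 τ (d2 G) C l1 hML (fun x => ⟨by rw [abs_of_nonneg (hτ0 x).1]; linarith [(hτ0 x).2], (hb x).2.2.1⟩)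

/-- facts on `τ = (q + s)/n`, `s = ∑_(l<r) χ_l`. -/
theorem FRG_tau {χ : ℕ → ℝ → ℝ} {A : ℝ} {N : ℕ} (hA : 1 ≤ A)
    (h1 : ∀ k, ContDiff ℝ 3 (χ k)) (h2 : ∀ k x, χ k (x + 1) = χ k x ∧ 0 ≤ χ k x)
    (h3 : ∀ x, (∑ k ∈ Finset.range N, χ k x) = 1)
    (h5 : ∀ k x, |χ k x| ≤ A ∧ |deriv (χ k) x| ≤ A ∧ |d2 (χ k) x| ≤ A ∧ |deriv (d2 (χ k)) x| ≤ A)
    (n q r : ℕ) (hn : 0 < n) (hq : q < n) (hr : r ≤ N) :
    ContDiff ℝ 3 (fun x => ((q : ℝ) + ∑ l ∈ Finset.range r, χ l x) / n) ∧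
    (∀ x, ((q : ℝ) + ∑ l ∈ Finset.range r, χ l (x + 1)) / n = ((q : ℝ) + ∑ l ∈ Finset.range r, χ l x) / n) ∧
    (∀ x, 0 ≤ ((q : ℝ) + ∑ l ∈ Finset.range r, χ l x) / n ∧ ((q : ℝ) + ∑ l ∈ Finset.range r, χ l x) / n ≤ 1) ∧
    (∀ x, |deriv (fun x => ((q : ℝ) + ∑ l ∈ Finset.range r, χ l x) / n) x| ≤ N * A / n ∧
      |d2 (fun x => ((q : ℝ) + ∑ l ∈ Finset.range r, χ l x) / n) x| ≤ N * A / n ∧
      |deriv (d2 (fun x => ((q : ℝ) + ∑ l ∈ Finset.range r, χ l x) / n)) x| ≤ N * A / n) := by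
  have hn' : (0 : ℝ) < n := by exact_mod_cast hn
  have hd1 : ∀ x, HasDerivAt (fun x => ((q : ℝ) + ∑ l ∈ Finset.range r, χ l x) / n)
      ((∑ l ∈ Finset.range r, deriv (χ l) x) / n) x := by
    intro x
    have : HasDerivAt (fun x => ∑ l ∈ Finset.range r, χ l x) (∑ l ∈ Finset.range r, deriv (χ l) x) x :=
      HasDerivAt.fun_sum fun l _ => (((h1 l).differentiable (by norm_num)) x).hasDerivAt
    exact (this.const_add _).div_const _
  have e1 : deriv (fun x => ((q : ℝ) + ∑ l ∈ Finset.range r, χ l x) / n) =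
      fun x => (∑ l ∈ Finset.range r, deriv (χ l) x) / n := funext fun x => (hd1 x).deriv
  have hd2 : ∀ x, HasDerivAt (fun x => (∑ l ∈ Finset.range r, deriv (χ l) x) / n)
      ((∑ l ∈ Finset.range r, d2 (χ l) x) / n) x := by
    intro x
    have : HasDerivAt (fun x => ∑ l ∈ Finset.range r, deriv (χ l) x) (∑ l ∈ Finset.range r, d2 (χ l) x) x :=
      HasDerivAt.fun_sum fun l _ => FRG_dd ((h1 l).of_le (by norm_num)) x
    exact this.div_const _
  have e2 : d2 (fun x => ((q : ℝ) + ∑ l ∈ Finset.range r, χ l x) / n) =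
      fun x => (∑ l ∈ Finset.range r, d2 (χ l) x) / n := by
    unfold d2 at hd2 ⊢
    rw [e1]
    exact funext fun x => (hd2 x).deriv
  have hd3 : ∀ x, HasDerivAt (fun x => (∑ l ∈ Finset.range r, d2 (χ l) x) / n)
      ((∑ l ∈ Finset.range r, deriv (d2 (χ l)) x) / n) x := by
    intro x
    have : HasDerivAt (fun x => ∑ l ∈ Finset.range r, d2 (χ l) x) (∑ l ∈ Finset.range r, deriv (d2 (χ l)) x) x := by
      refine HasDerivAt.fun_sum fun l _ => ?_
      have h3' : (3 : WithTop ℕ∞) = 2 + 1 := by norm_num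
      have h6 := h1 l
      rw [h3'] at h6
      have h4 := (contDiff_succ_iff_deriv.1 h6).2.2
      have h2' : (2 : WithTop ℕ∞) = 1 + 1 := by norm_num
      rw [h2'] at h4
      have h7 : DifferentiableAt ℝ (deriv (deriv (χ l))) x :=
        ((contDiff_succ_iff_deriv.1 h4).2.2.differentiable (by norm_num)) x
      exact h7.hasDerivAt
    exact this.div_const _
  have hs : ∀ (u : ℕ → ℝ), (∀ l, |u l| ≤ A) → |(∑ l ∈ Finset.range r, u l) / n| ≤ N * A / n := by
    intro u hu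
    rw [abs_div, abs_of_pos hn']
    apply div_le_div_of_nonneg_right _ hn'.le
    calc |∑ l ∈ Finset.range r, u l| ≤ ∑ l ∈ Finset.range r, |u l| := Finset.abs_sum_le_sum_abs _ _
      _ ≤ ∑ _l ∈ Finset.range r, A := Finset.sum_le_sum fun l _ => hu l
      _ = r * A := by simp
      _ ≤ N * A := mul_le_mul_of_nonneg_right (by exact_mod_cast hr) (by linarith)
  refine ⟨?_, ?_, ?_, ?_⟩
  · exact (contDiff_const.add (ContDiff.sum fun l _ => h1 l)).div_const _
  · intro x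
    rw [Finset.sum_congr rfl fun l _ => (h2 l x).1]
  · intro x
    have h0 : 0 ≤ ∑ l ∈ Finset.range r, χ l x := Finset.sum_nonneg fun l _ => (h2 l x).2
    have h1' : ∑ l ∈ Finset.range r, χ l x ≤ 1 := by
      rw [← h3 x]
      exact Finset.sum_le_sum_of_subset_of_nonneg (Finset.range_subset_range.2 hr) fun l _ _ => (h2 l x).2
    have h4 : (q : ℝ) + 1 ≤ n := by exact_mod_cast hq
    constructor
    · positivity
    · rw [div_le_one hn']; linarith
  · intro x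
    refine ⟨?_, ?_, ?_⟩
    · rw [e1]; exact hs _ fun l => (h5 l x).2.1
    · rw [e2]; exact hs _ fun l => (h5 l x).2.2.1
    · rw [e2, (hd3 x).deriv]; exact hs _ fun l => (h5 l x).2.2.2

/-- the difference `D = σ X`. -/
theorem FRG_D {G σ : ℝ → ℝ} {C a : ℝ} (hG : ContDiff ℝ 2 G) (hσ : ContDiff ℝ 3 σ) (ha : 0 ≤ a)
    (hX' : ∀ x, |deriv G x - 1| ≤ C) (hX'' : ∀ x, |d2 G x| ≤ C) (hX : ∀ x, |G x - x| ≤ C)
    (hσB : ∀ x, |σ x| ≤ a ∧ |deriv σ x| ≤ a ∧ |d2 σ x| ≤ a) :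
    ContDiff ℝ 2 (fun x => σ x * (G x - x)) ∧ (∀ x, |deriv (fun x => σ x * (G x - x)) x| ≤ 4 * (a * C)) ∧
    ∀ x, |d2 (fun x => σ x * (G x - x)) x| ≤ 4 * (a * C) := by
  have hσd : ∀ x, HasDerivAt σ (deriv σ x) x := fun x => ((hσ.differentiable (by norm_num)) x).hasDerivAt
  have hσ2 : ContDiff ℝ 2 σ := hσ.of_le (by norm_num)
  have h1 : ∀ x, HasDerivAt (fun x => σ x * (G x - x)) (deriv σ x * (G x - x) + σ x * (deriv G x - 1)) x :=
    fun x => (hσd x).mul (FRG_dX hG x)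
  have h2 : deriv (fun x => σ x * (G x - x)) = (fun x => deriv σ x * (G x - x) + σ x * (deriv G x - 1)) :=
    funext fun x => (h1 x).deriv
  have h3 : ∀ x, d2 (fun x => σ x * (G x - x)) x =
      d2 σ x * (G x - x) + deriv σ x * (deriv G x - 1) + (deriv σ x * (deriv G x - 1) + σ x * d2 G x) := by
    intro x
    unfold d2
    rw [h2]
    have h3 : HasDerivAt (fun x => deriv σ x * (G x - x) + σ x * (deriv G x - 1))
        (d2 σ x * (G x - x) + deriv σ x * (deriv G x - 1) + (deriv σ x * (deriv G x - 1) + σ x * d2 G x)) x := by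
      have a1 := (FRG_dd hσ2 x).mul (FRG_dX hG x)
      have a2 := (hσd x).mul ((FRG_dd hG x).sub_const 1)
      exact a1.add a2
    exact h3.deriv
  have pr : ∀ u v : ℝ, |u| ≤ a → |v| ≤ C → |u * v| ≤ a * C := fun u v hu hv => by
    rw [abs_mul]; exact mul_le_mul hu hv (abs_nonneg _) ha
  refine ⟨(hσ.of_le (by norm_num)).mul (hG.sub contDiff_id), fun x => ?_, fun x => ?_⟩
  · rw [h2]
    have k1 := abs_le.1 (pr _ _ (hσB x).2.1 (hX x))
    have k2 := abs_le.1 (pr _ _ (hσB x).1 (hX' x))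
    show |deriv σ x * (G x - x) + σ x * (deriv G x - 1)| ≤ _
    have k5 : 0 ≤ a * C := le_trans (abs_nonneg _) (pr _ _ (hσB x).1 (hX' x))
    rw [abs_le]; constructor <;> linarith [k1.1, k1.2, k2.1, k2.2]
  · rw [h3]
    have k1 := abs_le.1 (pr _ _ (hσB x).2.2 (hX x))
    have k2 := abs_le.1 (pr _ _ (hσB x).2.1 (hX' x))
    have k3 := abs_le.1 (pr _ _ (hσB x).1 (hX'' x))
    rw [abs_le]; constructor <;> linarith [k1.1, k1.2, k2.1, k2.2, k3.1, k3.2]

/-- good elements. -/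
def FRG_good (g h : CircleDeg1Liftˣ) (ε : ℝ) : Prop :=
  h ∈ G2 ∧ (∃ α : ℝ, SIn h α (α + 1 / 50)) ∧ (∀ x, |d2 (gg h) x| ≤ ε) ∧ (ML (d2 (gg g)) → ML (d2 (gg h)))

theorem FRG (hGGB : GGB_stmt) (hMKL : MKL_stmt) (hGDB : GDB_stmt) (hMLA : MLA_stmt) (hPIE : PIE_stmt)
    (hPUN : PUN_stmt) : FRG_stmt := by
  intro g hg ε hε
  obtain ⟨hG, hper, ⟨c, C, hc0, hc1, hC1, hb⟩, -⟩ := hGDB g hg
  obtain ⟨gext, gmul, gone, ginv, gadd, gmono, gtr, -⟩ := hGGB
  have hG1 : ∀ x, gg g (x + 1) = gg g x + 1 := fun x => by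
    have := gadd g x 1
    simpa using this
  obtain ⟨N, hN⟩ := exists_nat_gt (300 * C)
  have hN3 : 3 ≤ N := by
    have : (3 : ℝ) < N := by linarith
    exact_mod_cast this.le
  obtain ⟨χ, A, hA, h1, h2, h3, h4, h5⟩ := hPUN N hN3
  have hNpos : (0 : ℝ) < N := by linarith
  have hN0 : 0 < N := by omega
  set K : ℝ := 1 / (c / 2) ^ 2 + (2 * C) / (c / 2) ^ 3 with hK
  have hK0 : 0 < K := by positivity
  obtain ⟨n, hn⟩ := exists_nat_gt (2 * C * N * A / c + 3 * N * A + 4 * A * C * K / ε + 1)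
  have t1 : 0 ≤ 2 * C * N * A / c := by positivity
  have t2 : 0 ≤ 3 * N * A := by positivity
  have t3 : 0 ≤ 4 * A * C * K / ε := by positivity
  have hn1 : (1 : ℝ) < n := by linarith
  have hn' : (0 : ℝ) < n := by linarith
  have hn0 : 0 < n := by exact_mod_cast hn'
  have hB0 : 0 ≤ (N : ℝ) * A / n := by positivity
  have hB1 : (N : ℝ) * A / n * C ≤ c / 2 := by
    have : 2 * C * N * A / c ≤ n := by linarith
    rw [div_le_iff₀ hc0] at this
    rw [div_mul_eq_mul_div, div_le_iff₀ hn']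
    linarith
  have hB2 : 3 * ((N : ℝ) * A / n) ≤ 1 := by
    have : 3 * N * A ≤ n := by linarith
    rw [mul_div_assoc', div_le_one hn']
    linarith
  have hn2 : 4 * A * C / n * K ≤ ε := by
    have : 4 * A * C * K / ε ≤ n := by linarith
    rw [div_le_iff₀ hε] at this
    rw [div_mul_eq_mul_div, div_le_iff₀ hn']
    linarith
  -- the general piece
  have piece : ∀ q r : ℕ, q < n → r ≤ N → _ := fun q r hq hr =>
    FRG_tau (χ := χ) hA h1 h2 h3 h5 n q r hn0 hq hr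
  have pF : ∀ q r : ℕ, q < n → r ≤ N → _ := fun q r hq hr =>
    FRG_F hMLA (G := gg g) (B := (N : ℝ) * A / n) hG (piece q r hq hr).1 hc0 hc1 hC1 hb hG1
      (piece q r hq hr).2.1 (piece q r hq hr).2.2.1 hB0 hB1 hB2 (piece q r hq hr).2.2.2
  have hX' : ∀ x, |deriv (gg g) x - 1| ≤ C := fun x => by
    rw [abs_le]; constructor <;> linarith [(hb x).1, (hb x).2.1]
  have step : ∀ q r : ℕ, q < n → r + 1 ≤ N → ∀ f0 ∈ G2,
      (∀ x, gg f0 x = x + ((q : ℝ) + ∑ l ∈ Finset.range r, χ l x) / n * (gg g x - x)) →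
      ∃ f1 ∈ G2, (∀ x, gg f1 x = x + ((q : ℝ) + ∑ l ∈ Finset.range (r + 1), χ l x) / n * (gg g x - x)) ∧
        FRG_good g (f1 * f0⁻¹) ε := by
    intro q r hq hr f0 hf0 hf0e
    obtain ⟨a1, a2, a3, a4⟩ := pF q r hq (by omega)
    obtain ⟨b1, b2, b3, b4⟩ := pF q (r + 1) hq hr
    obtain ⟨f1, hf1, hf1e⟩ := hMKL _ b1 b2 (fun x => lt_of_lt_of_le (by positivity) (b3 x).1)
    refine ⟨f1, hf1, hf1e, ?_⟩
    have e0 : gg f0 = fun x => x + ((q : ℝ) + ∑ l ∈ Finset.range r, χ l x) / n * (gg g x - x) := funext hf0e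
    have e1 : gg f1 = fun x => x + ((q : ℝ) + ∑ l ∈ Finset.range (r + 1), χ l x) / n * (gg g x - x) := funext hf1e
    obtain ⟨d1, d3, d4⟩ := FRG_D (G := gg g) (σ := fun x => χ r x / n) (C := C) (a := A / n) hG ((h1 r).div_const _)
      (by positivity) hX' (fun x => (hb x).2.2.1) (fun x => (hb x).2.2.2) (by
        have hsd : ∀ x, HasDerivAt (fun x => χ r x / n) (deriv (χ r) x / n) x := fun x =>
          ((((h1 r).differentiable (by norm_num)) x).hasDerivAt).div_const _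
        have hsd2 : deriv (fun x => χ r x / n) = fun x => deriv (χ r) x / n := funext fun x => (hsd x).deriv
        have hsd3 : ∀ x, d2 (fun x => χ r x / n) x = d2 (χ r) x / n := by
          intro x
          unfold d2
          rw [hsd2]
          exact ((FRG_dd ((h1 r).of_le (by norm_num)) x).div_const _).deriv
        intro x
        rw [hsd3, hsd2]
        refine ⟨?_, ?_, ?_⟩
        · rw [abs_div, abs_of_pos hn']; exact div_le_div_of_nonneg_right (h5 r x).1 hn'.le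
        · show |deriv (χ r) x / n| ≤ A / n
          rw [abs_div, abs_of_pos hn']; exact div_le_div_of_nonneg_right (h5 r x).2.1 hn'.le
        · rw [abs_div, abs_of_pos hn']; exact div_le_div_of_nonneg_right (h5 r x).2.2.1 hn'.le)
    have e2 : gg f1 = fun x => gg f0 x + χ r x / n * (gg g x - x) := by
      funext x
      rw [hf1e, hf0e, Finset.sum_range_succ]
      ring
    rw [← e0] at a1 a3 a4
    rw [← e1] at b1 b3 b4
    have e3 : deriv (gg f1) = fun x => deriv (gg f0) x + deriv (fun x => χ r x / n * (gg g x - x)) x := by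
      funext x
      rw [e2]
      exact deriv_fun_add ((a1.differentiable (by norm_num)) x) ((d1.differentiable (by norm_num)) x)
    have e4 : ∀ x, d2 (gg f1) x = d2 (gg f0) x + d2 (fun x => χ r x / n * (gg g x - x)) x := by
      intro x
      show deriv (deriv (gg f1)) x = _
      rw [e3]
      exact ((FRG_dd a1 x).add (FRG_dd d1 x)).deriv
    obtain ⟨p1, p2, p3, p4⟩ := hPIE f0 hf0 f1 hf1 ((r : ℝ) / N - 1 / N) ((r : ℝ) / N + 1 / N) (c / 2) (2 * C)
      (4 * (A / n * C)) (fun x hx => by rw [e2]; simp [h4 r x hx]) (by positivity)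
      (fun x => ⟨(a3 x).1, (a3 x).2.2⟩)
      (fun x => ⟨by rw [e3]; simpa using d3 x, by rw [e4]; simpa using d4 x⟩)
    have hlen : gg f0 ((r : ℝ) / N + 1 / N) ≤ gg f0 ((r : ℝ) / N - 1 / N) + 1 / 50 := by
      have hL := FRG_lip (u := gg f0) (u' := deriv (gg f0)) (K := 3 * C)
        (fun x => ((a1.differentiable (by norm_num)) x).hasDerivAt)
        (fun x => by
          rw [abs_of_nonneg (by linarith [(a3 x).1])]; exact (a3 x).2.1)
        ((r : ℝ) / N + 1 / N) ((r : ℝ) / N - 1 / N)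
      have h6 : (r : ℝ) / N + 1 / N - ((r : ℝ) / N - 1 / N) = 2 / N := by ring
      rw [h6, abs_of_pos (by positivity : (0 : ℝ) < 2 / N)] at hL
      have h7 : 3 * C * (2 / N) ≤ 1 / 50 := by
        rw [mul_div_assoc', div_le_div_iff₀ hNpos (by norm_num)]
        linarith
      have h8 := (abs_le.1 (hL.trans h7)).2
      linarith
    refine ⟨p1, ⟨gg f0 ((r : ℝ) / N - 1 / N), fun x hx => p2 x fun m hm => hx m ⟨hm.1, hm.2.trans hlen⟩⟩, fun x => ?_,
      fun hML => p4 (a4 hML) (b4 hML)⟩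
    refine (p3 x).trans ?_
    have : 4 * (A / n * C) * (1 / (c / 2) ^ 2 + 2 * C / (c / 2) ^ 3) = 4 * A * C / n * K := by rw [hK]; ring
    rw [this]; exact hn2
  -- the main induction
  have main : ∀ q : ℕ, q < n → ∀ r : ℕ, r ≤ N → ∃ f ∈ G2,
      (∀ x, gg f x = x + ((q : ℝ) + ∑ l ∈ Finset.range r, χ l x) / n * (gg g x - x)) ∧
      ∃ l : List CircleDeg1Liftˣ, l.prod = f ∧ ∀ h ∈ l, FRG_good g h ε := by
    intro q
    induction q with
    | zero =>
      intro hq r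
      induction r with
      | zero =>
        intro hr
        refine ⟨1, one_mem _, fun x => ?_, [], by simp, by simp⟩
        rw [gone]; simp
      | succ r ih =>
        intro hr
        obtain ⟨f0, hf0, hf0e, l, hl, hlg⟩ := ih (by omega)
        obtain ⟨f1, hf1, hf1e, hgood⟩ := step _ r hq hr f0 hf0 hf0e
        refine ⟨f1, hf1, hf1e, (f1 * f0⁻¹) :: l, by rw [List.prod_cons, hl]; group, fun h hh => ?_⟩
        rcases List.mem_cons.1 hh with rfl | hh
        · exact hgood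
        · exact hlg h hh
    | succ q ihq =>
      intro hq r
      induction r with
      | zero =>
        intro hr
        obtain ⟨f0, hf0, hf0e, l, hl, hlg⟩ := ihq (by omega) N le_rfl
        refine ⟨f0, hf0, fun x => ?_, l, hl, hlg⟩
        rw [hf0e, h3]; push_cast; simp
      | succ r ih =>
        intro hr
        obtain ⟨f0, hf0, hf0e, l, hl, hlg⟩ := ih (by omega)
        obtain ⟨f1, hf1, hf1e, hgood⟩ := step _ r hq hr f0 hf0 hf0e
        refine ⟨f1, hf1, hf1e, (f1 * f0⁻¹) :: l, by rw [List.prod_cons, hl]; group, fun h hh => ?_⟩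
        rcases List.mem_cons.1 hh with rfl | hh
        · exact hgood
        · exact hlg h hh
  obtain ⟨f, hf, hfe, l, hl, hlg⟩ := main (n - 1) (by omega) N le_rfl
  have : f = g := by
    apply gext
    intro x
    rw [hfe, h3, Nat.cast_sub (by omega)]
    push_cast
    have : ((n : ℝ) - 1 + 1) / n = 1 := by
      rw [sub_add_cancel, div_self hn'.ne']
    rw [this]; ring
  rw [this] at hl
  exact ⟨l, hl, hlg⟩

end Pool.Agent.helper64.D2
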